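import Mathlib

/-!
# Left and right Haar null sets differ in some Polish group amenable at 1
-/

open MeasureTheory Filter Topology Set

namespace Pool.Agent.Results.MP_092965_lc.LeftNotRight

/-- `A ⊆ G` is left Haar null: there are a Borel set `B ⊇ A` and a Borel probability measure `μ`
on `G` with `μ (g B) = 0` for every `g ∈ G`. -/
def LeftHaarNull (G : Type*) [Group G] [MeasurableSpace G] (A : Set G) : Prop :=
  ∃ B : Set G, MeasurableSet B ∧ A ⊆ B ∧ ∃ μ : Measure G, IsProbabilityMeasure μ ∧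
    ∀ g : G, μ ((fun x => g * x) '' B) = 0

/-- `A ⊆ G` is right Haar null: there are a Borel set `B ⊇ A` and a Borel probability measure `μ`
on `G` with `μ (B g) = 0` for every `g ∈ G`. -/
def RightHaarNull (G : Type*) [Group G] [MeasurableSpace G] (A : Set G) : Prop :=
  ∃ B : Set G, MeasurableSet B ∧ A ⊆ B ∧ ∃ μ : Measure G, IsProbabilityMeasure μ ∧
    ∀ g : G, μ ((fun x => x * g) '' B) = 0

/-- `G` is amenable at 1 (Solecki): for every sequence `(μ n)` of Borel probability measures with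
`1 ∈ supp (μ n)` for all `n` there are Borel probability measures `ν n` and `ν'` with `ν n ≪ μ n`
for all `n` and `(ν' * ν n) (K) → ν' (K)` for every compact `K ⊆ G`, where `*` is the
(multiplicative) convolution. -/
def AmenableAtOne (G : Type*) [Group G] [TopologicalSpace G] [MeasurableSpace G] : Prop :=
  ∀ μ : ℕ → Measure G, (∀ n, IsProbabilityMeasure (μ n)) → (∀ n, (1 : G) ∈ (μ n).support) →
    ∃ (ν : ℕ → Measure G) (ν' : Measure G), (∀ n, IsProbabilityMeasure (ν n)) ∧
      IsProbabilityMeasure ν' ∧ (∀ n, ν n ≪ μ n) ∧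
      ∀ K : Set G, IsCompact K → Tendsto (fun n => (ν'.mconv (ν n)) K) atTop (𝓝 (ν' K))

section Thick

variable {H : Type} [Group H]

lemma exists_conj_avoid (f : H) (hf : (Set.range fun g : H => g * f * g⁻¹).Infinite)
    (S T : Set H) (hS : S.Finite) (hT : T.Finite) : ∃ g : H, g ∉ S ∧ g * f * g⁻¹ ∉ T := by
  have h1 : {g : H | g * f * g⁻¹ ∉ T}.Infinite := by
    intro hfin
    have : (Set.range fun g : H => g * f * g⁻¹) ⊆
        (fun g : H => g * f * g⁻¹) '' {g : H | g * f * g⁻¹ ∉ T} ∪ T := by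
      rintro _ ⟨g, rfl⟩
      by_cases h : g * f * g⁻¹ ∈ T
      · exact Or.inr h
      · exact Or.inl ⟨g, h, rfl⟩
    exact hf (((hfin.image _).union hT).subset this)
  obtain ⟨g, hg, hgS⟩ := h1.exists_notMem_finite hS
  exact ⟨g, hgS, hg⟩

open scoped Pointwise in
lemma exists_step (f : H) (hf : (Set.range fun g : H => g * f * g⁻¹).Infinite)
    (K S : Set H) (hK : K.Finite) (hS : S.Finite) (hSf : ∀ b ∈ S, b * f ∉ S) :
    ∃ S' : Set H, S'.Finite ∧ (∀ b ∈ S', b * f ∉ S') ∧ S ⊆ S' ∧ ∃ g : H, ∀ k ∈ K, k * g ∈ S' := by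
  obtain ⟨g, hg1, hg2⟩ := exists_conj_avoid f hf
    ((K⁻¹ * (S * {f})) ∪ (K⁻¹ * (S * {f⁻¹}))) (K⁻¹ * K)
    ((hK.inv.mul (hS.mul (Set.finite_singleton _))).union
      (hK.inv.mul (hS.mul (Set.finite_singleton _)))) (hK.inv.mul hK)
  refine ⟨S ∪ K * {g}, hS.union (hK.mul (Set.finite_singleton _)), ?_, Set.subset_union_left, g,
    fun k hk => Or.inr (Set.mul_mem_mul hk rfl)⟩
  rintro b (hb | hb) (hbf | hbf)
  · exact hSf b hb hbf
  · obtain ⟨k, hk, g', hg', hkg⟩ := hbf
    rw [Set.mem_singleton_iff] at hg'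
    subst hg'
    apply hg1
    left
    refine ⟨k⁻¹, Set.inv_mem_inv.mpr hk, b * f, ⟨b, hb, f, rfl, rfl⟩, ?_⟩
    simp only at hkg ⊢
    rw [← hkg]; group
  · obtain ⟨k, hk, g', hg', hkg⟩ := hb
    rw [Set.mem_singleton_iff] at hg'
    subst hg'
    subst hkg
    apply hg1
    right
    refine ⟨k⁻¹, Set.inv_mem_inv.mpr hk, (k * g' * f) * f⁻¹,
      ⟨k * g' * f, hbf, f⁻¹, rfl, rfl⟩, ?_⟩
    simp only
    group
  · obtain ⟨k, hk, g', hg', hkg⟩ := hb
    rw [Set.mem_singleton_iff] at hg'
    subst hg'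
    subst hkg
    obtain ⟨k', hk', g', hg', hkk⟩ := hbf
    rw [Set.mem_singleton_iff] at hg'
    subst hg'
    apply hg2
    refine ⟨k⁻¹, Set.inv_mem_inv.mpr hk, k', hk', ?_⟩
    simp only at hkk ⊢
    have : k' = k * g' * f * g'⁻¹ := by rw [← hkk]; group
    rw [this]; group

/-- A subset `B` of `H` containing a right translate of every finite set but with `B f` disjoint
from `B`. -/
lemma exists_rightThick [Countable H] (f : H) (hf : (Set.range fun g : H => g * f * g⁻¹).Infinite) :
    ∃ B : Set H, (∀ K : Set H, K.Finite → ∃ g : H, ∀ k ∈ K, k * g ∈ B) ∧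
      ∀ b ∈ B, b * f ∉ B := by
  classical
  obtain ⟨F, hF⟩ := exists_surjective_nat (Finset H)
  let St := {S : Set H // S.Finite ∧ ∀ b ∈ S, b * f ∉ S}
  have step : ∀ (n : ℕ) (S : St), ∃ S' : St, S.1 ⊆ S'.1 ∧ ∃ g : H, ∀ k ∈ F n, k * g ∈ S'.1 := by
    intro n S
    obtain ⟨S', h1, h2, h3, h4⟩ := exists_step f hf (F n) S.1 (F n).finite_toSet S.2.1 S.2.2
    exact ⟨⟨S', h1, h2⟩, h3, h4⟩
  choose nxt hn1 hn2 using step
  let seq : ℕ → St := fun n => Nat.rec ⟨∅, Set.finite_empty, by simp⟩ (fun n S => nxt n S) n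
  have hmono : Monotone fun n => (seq n).1 := monotone_nat_of_le_succ fun n => hn1 n (seq n)
  refine ⟨⋃ n, (seq n).1, ?_, ?_⟩
  · intro K hK
    obtain ⟨n, hn⟩ := hF hK.toFinset
    obtain ⟨g, hg⟩ := hn2 n (seq n)
    refine ⟨g, fun k hk => Set.mem_iUnion.mpr ⟨n + 1, hg k ?_⟩⟩
    rw [hn]; simpa using hk
  · intro b hb hbf
    obtain ⟨n, hn⟩ := Set.mem_iUnion.mp hb
    obtain ⟨m, hm⟩ := Set.mem_iUnion.mp hbf
    exact (seq (max n m)).2.2 b (hmono (le_max_left _ _) hn) (hmono (le_max_right _ _) hm)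

end Thick

section General

variable {H : Type} [Group H] [Countable H] [TopologicalSpace H] [DiscreteTopology H]
  [MeasurableSpace H] [BorelSpace H]

/-- The uniform probability measure on `{1, f}`. -/
noncomputable def half (f : H) : Measure H :=
  (2 : ENNReal)⁻¹ • (Measure.dirac 1 + Measure.dirac f)

omit [Countable H] [TopologicalSpace H] [DiscreteTopology H] [BorelSpace H] in
lemma half_prob (f : H) : IsProbabilityMeasure (half f) := by
  constructor
  simp only [half, Measure.smul_apply, Measure.add_apply, measure_univ, smul_eq_mul]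
  rw [one_add_one_eq_two]
  exact ENNReal.inv_mul_cancel (by simp) (by simp)

lemma half_le (f : H) (B : Set H) (hB : ∀ b ∈ B, b * f ∉ B) (g : H) :
    half f {h | g⁻¹ * h ∈ B} ≤ 2⁻¹ := by
  have hm : MeasurableSet {h : H | g⁻¹ * h ∈ B} := MeasurableSet.of_discrete
  simp only [half, Measure.smul_apply, Measure.add_apply, smul_eq_mul]
  rw [Measure.dirac_apply' _ hm, Measure.dirac_apply' _ hm]
  have : (Set.indicator {h : H | g⁻¹ * h ∈ B} (1 : H → ENNReal) 1) +
      (Set.indicator {h : H | g⁻¹ * h ∈ B} (1 : H → ENNReal) f) ≤ 1 := by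
    by_cases h1 : g⁻¹ ∈ B
    · have h2 := hB _ h1
      simp [Set.indicator, h1, h2]
    · by_cases h2 : g⁻¹ * f ∈ B <;> simp [Set.indicator, h1, h2]
  calc _ ≤ (2 : ENNReal)⁻¹ * 1 := by gcongr
    _ = _ := by simp

lemma leftHaarNull_pi (f : H) (B : Set H) (hB : ∀ b ∈ B, b * f ∉ B) :
    LeftHaarNull (ℕ → H) {x | ∀ n, x n ∈ B} := by
  have hp := half_prob f
  refine ⟨{x | ∀ n, x n ∈ B}, ?_, subset_rfl, Measure.infinitePi fun _ => half f,
    inferInstance, ?_⟩
  · rw [Set.ofPred_forall]
    exact MeasurableSet.iInter fun n => (measurable_pi_apply n) (MeasurableSet.of_discrete)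
  · intro g
    have key : ∀ N : ℕ, (Measure.infinitePi fun _ : ℕ => half f)
        ((fun x => g * x) '' {x | ∀ n, x n ∈ B}) ≤ (2⁻¹ : ENNReal) ^ N := by
      intro N
      have h1 : (Measure.infinitePi fun _ : ℕ => half f) ((fun x => g * x) '' {x | ∀ n, x n ∈ B})
          ≤ (Measure.infinitePi fun _ : ℕ => half f)
            (((Finset.range N : Finset ℕ) : Set ℕ).pi fun i => {h | (g i)⁻¹ * h ∈ B}) := by
        apply measure_mono
        rintro _ ⟨x, hx, rfl⟩ i _
        simpa using hx i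
      have h2 : (Measure.infinitePi fun _ : ℕ => half f)
            (((Finset.range N : Finset ℕ) : Set ℕ).pi fun i => {h | (g i)⁻¹ * h ∈ B}) =
          ∏ i ∈ Finset.range N, half f {h | (g i)⁻¹ * h ∈ B} := by
        rw [Measure.infinitePi_pi]
        intro i _
        exact MeasurableSet.of_discrete
      have h3 : ∏ i ∈ Finset.range N, half f {h | (g i)⁻¹ * h ∈ B} ≤
          ∏ i ∈ Finset.range N, (2⁻¹ : ENNReal) :=
        Finset.prod_le_prod' fun i _ => half_le f B hB (g i)
      have h4 : ∏ i ∈ Finset.range N, (2⁻¹ : ENNReal) = (2⁻¹ : ENNReal) ^ N := by simp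
      rw [h2] at h1
      exact h1.trans (h3.trans h4.le)
    have hlim : Tendsto (fun N : ℕ => (2⁻¹ : ENNReal) ^ N) atTop (𝓝 0) :=
      ENNReal.tendsto_pow_atTop_nhds_zero_of_lt_one (by simp)
    exact le_antisymm (ge_of_tendsto' hlim key) (by simp)

lemma not_rightHaarNull_pi (B : Set H)
    (hB : ∀ K : Set H, K.Finite → ∃ g : H, ∀ k ∈ K, k * g ∈ B) :
    ¬ RightHaarNull (ℕ → H) {x | ∀ n, x n ∈ B} := by
  rintro ⟨B', _, hsub, μ, hμ, hnull⟩
  obtain ⟨K, _, hK, hpos⟩ := MeasurableSet.univ.exists_isCompact_lt_add (μ := μ) (by simp)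
    (one_ne_zero (α := ENNReal))
  have hKpos : μ K ≠ 0 := by
    intro h0
    rw [h0] at hpos
    simp at hpos
  have hfin : ∀ i, ((fun x : ℕ → H => x i) '' K).Finite := fun i =>
    (hK.image (continuous_apply i)).finite_of_discrete
  choose g hg using fun i => hB _ (hfin i)
  apply hKpos
  refine measure_mono_null ?_ (hnull g⁻¹)
  intro x hx
  refine ⟨x * g, hsub fun n => hg n _ ⟨x, hx, rfl⟩, ?_⟩
  simp

/-- The uniform probability measure on a finite subgroup. -/
noncomputable def unif (K : Subgroup H) [Fintype K] : Measure H :=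
  (Fintype.card K : ENNReal)⁻¹ • ∑ k : K, Measure.dirac (k : H)

omit [Countable H] [TopologicalSpace H] [DiscreteTopology H] [BorelSpace H] in
lemma unif_prob (K : Subgroup H) [Fintype K] : IsProbabilityMeasure (unif K) := by
  constructor
  simp only [unif, Measure.smul_apply, Measure.finsetSum_apply, measure_univ, smul_eq_mul,
    Finset.sum_const, Finset.card_univ, nsmul_eq_mul, mul_one]
  exact ENNReal.inv_mul_cancel (by simp) (by simp)

lemma unif_map (K : Subgroup H) [Fintype K] (y : H) (hy : y ∈ K) :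
    (unif K).map (fun x => x * y) = unif K := by
  ext s hs
  rw [Measure.map_apply (measurable_of_countable _) hs]
  simp only [unif, Measure.smul_apply, Measure.finsetSum_apply, smul_eq_mul]
  congr 1
  refine Fintype.sum_equiv (Equiv.mulRight (⟨y, hy⟩ : K)) _ _ fun k => ?_
  rw [Measure.dirac_apply' _ MeasurableSet.of_discrete, Measure.dirac_apply' _ hs]
  by_cases h : (k : H) * y ∈ s
  · have h' : (k : H) ∈ (fun x => x * y) ⁻¹' s := h
    simp [Set.indicator, h, h']
  · have h' : (k : H) ∉ (fun x => x * y) ⁻¹' s := h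
    simp [Set.indicator, h, h']

lemma infinitePi_unif_map (K : ℕ → Subgroup H) [∀ i, Fintype (K i)] (y : ℕ → H)
    (hy : ∀ i, y i ∈ K i) :
    (Measure.infinitePi fun i => unif (K i)).map (fun x => x * y) =
      Measure.infinitePi fun i => unif (K i) := by
  have hp := fun i => unif_prob (K i)
  have h := Measure.infinitePi_map_pi (fun i => unif (K i)) (f := fun i (x : H) => x * y i)
    (fun i => measurable_of_countable _)
  have e : (fun (x : ℕ → H) i => x i * y i) = fun x => x * y := rfl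
  rw [e] at h
  rw [h]
  congr 1
  ext1 i
  exact unif_map (K i) (y i) (hy i)

theorem amenableAtOne_pi
    (hlf : ∀ s : Set H, s.Finite → ∃ K : Subgroup H, (K : Set H).Finite ∧ s ⊆ K) :
    AmenableAtOne (ℕ → H) := by
  intro μ hμ hsupp
  have hC : ∀ n, ∃ C : Set (ℕ → H), C ⊆ {x | ∀ i < n, x i = 1} ∧ IsCompact C ∧ μ n C ≠ 0 := by
    intro n
    have hopen : IsOpen {x : ℕ → H | ∀ i < n, x i = 1} := by
      have : {x : ℕ → H | ∀ i < n, x i = 1} = ⋂ i ∈ Finset.range n, {x | x i = 1} := by
        ext x; simp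
      rw [this]
      refine isOpen_biInter_finset fun i _ => ?_
      exact (isOpen_discrete {(1 : H)}).preimage (continuous_apply (A := fun _ : ℕ => H) i)
    have hpos : 0 < μ n {x : ℕ → H | ∀ i < n, x i = 1} :=
      (Measure.mem_support_iff_forall _).mp (hsupp n) _ (hopen.mem_nhds (by simp))
    obtain ⟨C, hC1, hC2, hC3⟩ := hopen.measurableSet.exists_isCompact_lt_add (μ := μ n) (by simp)
      hpos.ne'
    refine ⟨C, hC1, hC2, fun h0 => ?_⟩
    rw [h0] at hC3
    simp at hC3
  choose C hC1 hC2 hC3 using hC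
  have hfin : ∀ i, (⋃ n ∈ Finset.range (i + 1), (fun x : ℕ → H => x i) '' C n).Finite := by
    intro i
    refine Set.Finite.biUnion (Finset.finite_toSet _) fun n _ => ?_
    exact ((hC2 n).image (continuous_apply i)).finite_of_discrete
  choose K hK1 hK2 using fun i => hlf _ (hfin i)
  have hft : ∀ i, Fintype (K i) := fun i => (hK1 i).fintype
  have hp := fun i => unif_prob (K i)
  have hCK : ∀ n, ∀ x ∈ C n, ∀ i, x i ∈ K i := by
    intro n x hx i
    by_cases hin : i < n
    · rw [hC1 n hx i hin]; exact one_mem _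
    · exact hK2 i (Set.mem_biUnion (Finset.mem_coe.mpr (Finset.mem_range.mpr (by omega)))
        ⟨x, hx, rfl⟩)
  refine ⟨fun n => ProbabilityTheory.cond (μ n) (C n), Measure.infinitePi fun i => unif (K i),
    fun n => ProbabilityTheory.cond_isProbabilityMeasure (hC3 n), inferInstance,
    fun n => ProbabilityTheory.cond_absolutelyContinuous, ?_⟩
  intro S hS
  have heq : ∀ n, ((Measure.infinitePi fun i => unif (K i)).mconv
      (ProbabilityTheory.cond (μ n) (C n))) S = (Measure.infinitePi fun i => unif (K i)) S := by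
    intro n
    have := ProbabilityTheory.cond_isProbabilityMeasure (hC3 n)
    have hSm := hS.isClosed.measurableSet
    rw [Measure.mconv, Measure.map_apply (by fun_prop) hSm,
      Measure.prod_apply_symm (hSm.preimage (by fun_prop))]
    have hae : ∀ᵐ y ∂(ProbabilityTheory.cond (μ n) (C n)),
        (Measure.infinitePi fun i => unif (K i))
          ((fun x => (x, y)) ⁻¹' ((fun x : (ℕ → H) × (ℕ → H) => x.1 * x.2) ⁻¹' S)) =
        (Measure.infinitePi fun i => unif (K i)) S := by
      have h1 : ∀ᵐ y ∂(ProbabilityTheory.cond (μ n) (C n)), y ∈ C n := by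
        exact ProbabilityTheory.ae_cond_mem (hC2 n).isClosed.measurableSet
      filter_upwards [h1] with y hy
      have h2 := infinitePi_unif_map K y (hCK n y hy)
      conv_rhs => rw [← h2]
      rw [Measure.map_apply (by fun_prop) hSm]
      rfl
    rw [lintegral_congr_ae hae]
    simp
  simp_rw [heq]
  exact tendsto_const_nhds

end General

/-- The group of permutations of `ℕ` moving only finitely many points. -/
def FinPerm : Subgroup (Equiv.Perm ℕ) where
  carrier := {σ | {n | σ n ≠ n}.Finite}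
  one_mem' := by simp
  mul_mem' := by
    intro a b ha hb
    refine (Set.Finite.union ha hb).subset fun n hn => ?_
    by_contra hcon
    simp only [Set.mem_union, Set.mem_ofPred_eq, not_or, not_not] at hcon
    apply hn
    rw [Equiv.Perm.mul_apply, hcon.2, hcon.1]
  inv_mem' := by
    intro a ha
    refine Set.Finite.subset ha fun n hn => ?_
    intro hcon
    apply hn
    rw [Equiv.Perm.inv_eq_iff_eq, hcon]

/-- The finite subgroup of `FinPerm` fixing every `n ≥ N`. -/
def FinPermN (N : ℕ) : Subgroup FinPerm where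
  carrier := {σ | ∀ n, N ≤ n → (σ : Equiv.Perm ℕ) n = n}
  one_mem' := by intro n _; simp
  mul_mem' := by
    intro a b ha hb n hn
    simp [hb n hn, ha n hn]
  inv_mem' := by
    intro a ha n hn
    simp only [InvMemClass.coe_inv]
    rw [Equiv.Perm.inv_eq_iff_eq, ha n hn]

lemma finPermN_finite (N : ℕ) : ((FinPermN N : Subgroup FinPerm) : Set FinPerm).Finite := by
  have h1 : Finite {f : Equiv.Perm ℕ // ∀ a, ¬ a < N → f a = a} :=
    Finite.of_equiv _ (Equiv.Perm.subtypeEquivSubtypePerm (fun a => a < N))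
  rw [← Set.finite_coe_iff]
  refine Finite.of_injective
    (fun σ : (FinPermN N : Subgroup FinPerm) =>
      (⟨(σ.1 : Equiv.Perm ℕ), fun a ha => σ.2 a (not_lt.mp ha)⟩ :
        {f : Equiv.Perm ℕ // ∀ a, ¬ a < N → f a = a})) ?_
  intro σ τ h
  simp only [Subtype.mk.injEq] at h
  have h2 : (σ.1 : Equiv.Perm ℕ) = (τ.1 : Equiv.Perm ℕ) := h
  exact Subtype.ext (Subtype.ext h2)

lemma exists_mem_finPermN (σ : FinPerm) : ∃ N, σ ∈ FinPermN N := by
  obtain ⟨N, hN⟩ := σ.2.bddAbove
  refine ⟨N + 1, fun n hn => ?_⟩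
  by_contra hcon
  have := hN hcon
  omega

lemma finPermN_mono {N M : ℕ} (h : N ≤ M) : FinPermN N ≤ FinPermN M :=
  fun _ hσ n hn => hσ n (h.trans hn)

instance : Countable FinPerm := by
  rw [← Set.countable_univ_iff]
  have : (Set.univ : Set FinPerm) = ⋃ N, (FinPermN N : Set FinPerm) := by
    ext σ; simpa using exists_mem_finPermN σ
  rw [this]
  exact Set.countable_iUnion fun N => (finPermN_finite N).countable

lemma finPerm_locallyFinite (s : Set FinPerm) (hs : s.Finite) :
    ∃ K : Subgroup FinPerm, (K : Set FinPerm).Finite ∧ s ⊆ K := by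
  choose N hN using exists_mem_finPermN
  obtain ⟨M, hM⟩ := (hs.image N).bddAbove
  exact ⟨FinPermN M, finPermN_finite M, fun σ hσ =>
    finPermN_mono (hM ⟨σ, hσ, rfl⟩) (hN σ)⟩

lemma swap_mem (a b : ℕ) : Equiv.swap a b ∈ FinPerm := by
  refine (Set.toFinite {a, b}).subset fun n hn => ?_
  by_contra hcon
  simp only [Set.mem_insert_iff, Set.mem_singleton_iff, not_or] at hcon
  exact hn (Equiv.swap_apply_of_ne_of_ne hcon.1 hcon.2)

/-- The transposition `(a b)` as an element of `FinPerm`. -/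
def sw (a b : ℕ) : FinPerm := ⟨Equiv.swap a b, swap_mem a b⟩

lemma conj_infinite : (Set.range fun g : FinPerm => g * sw 0 1 * g⁻¹).Infinite := by
  have hinj : Function.Injective fun k : ℕ => sw 0 (k + 2) * sw 0 1 * (sw 0 (k + 2))⁻¹ := by
    intro k l hkl
    have h := congrArg (fun σ : FinPerm => (σ : Equiv.Perm ℕ) 1) hkl
    have hval : ∀ k : ℕ, (((sw 0 (k + 2) * sw 0 1 * (sw 0 (k + 2))⁻¹ : FinPerm) :
        Equiv.Perm ℕ)) 1 = k + 2 := by
      intro k
      simp only [sw, Subgroup.coe_mul, InvMemClass.coe_inv, Equiv.Perm.mul_apply, Equiv.swap_inv]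
      rw [Equiv.swap_apply_of_ne_of_ne (by omega : (1 : ℕ) ≠ 0) (by omega : (1 : ℕ) ≠ k + 2),
        Equiv.swap_apply_right, Equiv.swap_apply_left]
    simp only [hval] at h
    omega
  refine (Set.infinite_range_of_injective hinj).mono ?_
  rintro _ ⟨k, rfl⟩
  exact ⟨sw 0 (k + 2), rfl⟩

/-- There are a Polish group `G` which is amenable at 1 and a closed set `A ⊆ G` which is left
Haar null but not right Haar null. -/
theorem result : ∃ (G : Type) (_ : Group G) (_ : TopologicalSpace G) (_ : IsTopologicalGroup G)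
    (_ : PolishSpace G) (_ : MeasurableSpace G) (_ : BorelSpace G),
    AmenableAtOne G ∧ ∃ A : Set G, IsClosed A ∧ LeftHaarNull G A ∧ ¬ RightHaarNull G A := by
  let tH : TopologicalSpace FinPerm := ⊥
  have : DiscreteTopology FinPerm := ⟨rfl⟩
  let mH : MeasurableSpace FinPerm := borel FinPerm
  have : BorelSpace FinPerm := ⟨rfl⟩
  obtain ⟨B, hB1, hB2⟩ := exists_rightThick (sw 0 1) conj_infinite
  have hpol : PolishSpace (ℕ → FinPerm) :=
    { toSecondCountableTopology := inferInstance
      toIsCompletelyMetrizableSpace := inferInstance }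
  refine ⟨ℕ → FinPerm, inferInstance, inferInstance, inferInstance, hpol, inferInstance,
    inferInstance, amenableAtOne_pi finPerm_locallyFinite, {x | ∀ n, x n ∈ B}, ?_,
    leftHaarNull_pi (sw 0 1) B hB2, not_rightHaarNull_pi B hB1⟩
  rw [Set.ofPred_forall]
  exact isClosed_iInter fun n => (isClosed_discrete B).preimage (continuous_apply n)

end Pool.Agent.Results.MP_092965_lc.LeftNotRight
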